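import Mathlib
import Pool.Agent.BLie.Ext

/-!
A binary-Lie algebra of dimension 15 in which `J(c, ua, v)` is nonzero.

Basis: `x,a,c,u,v,k,u0,l,r,w,p3,pm,q1,q2,E` numbered `0,…,14`.
-/

set_option autoImplicit false
set_option linter.unusedSimpArgs false
set_option linter.unusedVariables false

namespace Pool.Agent.BLie

namespace Model

/-- integral combinations of basis vectors -/
abbrev V := List (ℕ × ℤ)

/-- products `e_i e_j` for `i < j` -/
def tbU (i j : ℕ) : V :=
  match i with
  | 0 => match j with
    | 1 => [(1, 2)]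
    | 2 => [(2, 1)]
    | 3 => [(3, -1)]
    | 4 => [(4, 2)]
    | 5 => [(5, 1)]
    | 7 => [(7, 2)]
    | 8 => [(8, 1)]
    | 9 => [(9, 2)]
    | 10 => [(10, 3)]
    | 11 => [(11, -1)]
    | 12 => [(12, 1)]
    | 13 => [(13, 2)]
    | 14 => [(14, 3)]
    | _ => []
  | 1 => match j with
    | 3 => [(5, -1)]
    | 4 => [(10, -1), (11, -1)]
    | 6 => [(7, -1)]
    | 9 => [(14, 2)]
    | _ => []
  | 2 => match j with
    | 3 => [(6, 1)]
    | 5 => [(7, 1)]
    | 8 => [(9, 1)]
    | 12 => [(14, 6)]
    | 13 => [(14, -3)]
    | _ => []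
  | 3 => match j with
    | 4 => [(8, 1)]
    | 10 => [(13, 1)]
    | 11 => [(12, 1), (13, 3)]
    | _ => []
  | 4 => match j with
    | 6 => [(9, -1)]
    | 7 => [(14, -2)]
    | _ => []
  | 6 => match j with
    | 10 => [(14, -3)]
    | _ => []
  | _ => []

/-- the multiplication table -/
def tb (i j : ℕ) : V :=
  if i < 15 ∧ j < 15 then
    if i < j then tbU i j else if j < i then (tbU j i).map fun t => (t.1, -t.2) else []
  else []

/-- the product of two integral combinations -/
def mulL (p q : V) : V :=
  p.flatMap fun s => q.flatMap fun t => (tb s.1 t.1).map fun z => (z.1, s.2 * t.2 * z.2)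

/-- the Jacobian -/
def JL (p q r : V) : V := mulL (mulL p q) r ++ (mulL (mulL q r) p ++ mulL (mulL r p) q)

/-- the linearised identity -/
def linL (p q r s : V) : V :=
  JL (mulL p q) r s ++ (JL (mulL p s) r q ++ (JL (mulL r q) p s ++ JL (mulL r s) p q))

/-- coefficients -/
def cf (n : ℕ) (p : V) : ℤ := (p.map fun t => if t.1 = n then t.2 else 0).sum

/-- vanishing of all coefficients -/
def isZ (p : V) : Bool := match p with
  | [] => true
  | _ => (List.range 15).all fun n => cf n p == 0

/-- basis vector -/
def bv (i : ℕ) : V := [(i, 1)]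

/-- the check, for ordered indices -/
def chk : Bool :=
  (List.range 15).all fun i => (List.range 15).all fun k => (k < i : Bool) ||
    (List.range 15).all fun j => (j < i : Bool) || (List.range 15).all fun l => (l < j : Bool) ||
      isZ (linL (bv i) (bv j) (bv k) (bv l))

set_option maxRecDepth 100000 in
theorem chk_true : chk = true := by decide +kernel


universe u

/-- the model -/
def M15 (F : Type u) : Type u := Fin 15 → F

section alg

variable {F : Type u} [CommRing F]

instance : AddCommGroup (M15 F) := inferInstanceAs (AddCommGroup (Fin 15 → F))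

instance : Module F (M15 F) := inferInstanceAs (Module F (Fin 15 → F))

@[simp] lemma add_ap (f g : M15 F) (i : Fin 15) : (f + g) i = f i + g i := rfl

@[simp] lemma smul_ap (r : F) (f : M15 F) (i : Fin 15) : (r • f) i = r * f i := rfl

@[simp] lemma zero_ap (i : Fin 15) : (0 : M15 F) i = 0 := rfl

/-- basis vectors -/
def e (n : ℕ) : M15 F := fun i => if (i : ℕ) = n then 1 else 0

/-- the element of the model given by an integral combination -/
def den (p : V) : M15 F := (p.map fun t => ((t.2 : ℤ) : F) • (e t.1 : M15 F)).sum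

lemma den_nil : den ([] : V) = (0 : M15 F) := rfl

lemma den_cons (t : ℕ × ℤ) (p : V) : den (t :: p) = ((t.2 : ℤ) : F) • (e t.1 : M15 F) + den p := by
  unfold den; rw [List.map_cons, List.sum_cons]

lemma den_append (p q : V) : den (p ++ q) = (den p + den q : M15 F) := by
  unfold den; rw [List.map_append, List.sum_append]

lemma den_scale (c : ℤ) (p : V) :
    den (p.map fun z => (z.1, c * z.2)) = ((c : ℤ) : F) • (den p : M15 F) := by
  induction p with
  | nil => rw [List.map_nil, den_nil, smul_zero]
  | cons t p ih => rw [List.map_cons, den_cons, den_cons, ih, smul_add, smul_smul]; push_cast; rfl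

lemma den_ap (p : V) (i : Fin 15) : (den p : M15 F) i = ((cf i p : ℤ) : F) := by
  induction p with
  | nil => simp [den_nil, cf]
  | cons t p ih =>
    rw [den_cons, add_ap, smul_ap, ih]
    unfold cf e
    rw [List.map_cons, List.sum_cons]
    push_cast
    by_cases h : (i : ℕ) = t.1
    · simp [h]
    · have h' : ¬ t.1 = (i : ℕ) := fun h' => h h'.symm
      simp [h, h']

lemma den_isZ {p : V} (h : isZ p = true) : (den p : M15 F) = 0 := by
  funext i
  rw [den_ap]
  cases p with
  | nil => simp [cf]
  | cons t p =>
    unfold isZ at h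
    rw [List.all_eq_true] at h
    have := h i (List.mem_range.mpr i.2)
    rw [beq_iff_eq] at this
    rw [this]; simp

instance : Mul (M15 F) where
  mul f g := ∑ i : Fin 15, ∑ j : Fin 15, (f i * g j) • (den (tb i j) : M15 F)

lemma mul_def' (f g : M15 F) :
    f * g = ∑ i : Fin 15, ∑ j : Fin 15, (f i * g j) • (den (tb i j) : M15 F) := rfl

instance : NonUnitalNonAssocRing (M15 F) :=
  { (inferInstance : AddCommGroup (M15 F)) with
    mul := (· * ·)
    left_distrib := fun a b c => by
      simp only [mul_def', add_ap, mul_add, add_smul, Finset.sum_add_distrib]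
    right_distrib := fun a b c => by
      simp only [mul_def', add_ap, add_mul, add_smul, Finset.sum_add_distrib]
    zero_mul := fun a => by
      simp only [mul_def', zero_ap, zero_mul, zero_smul, Finset.sum_const_zero]
    mul_zero := fun a => by
      simp only [mul_def', zero_ap, mul_zero, zero_smul, Finset.sum_const_zero] }

instance : IsScalarTower F (M15 F) (M15 F) where
  smul_assoc r a b := by
    simp only [smul_eq_mul, mul_def', smul_ap, Finset.smul_sum, smul_smul, mul_assoc]

instance : SMulCommClass F (M15 F) (M15 F) where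
  smul_comm r a b := by
    simp only [smul_eq_mul, mul_def', smul_ap, Finset.smul_sum, smul_smul, mul_left_comm]

lemma e_ge {n : ℕ} (hn : 15 ≤ n) : (e n : M15 F) = 0 := by
  funext i
  unfold e
  rw [if_neg (by omega)]
  rfl

lemma e_mul (i j : ℕ) : (e i * e j : M15 F) = den (tb i j) := by
  by_cases hi : i < 15
  · by_cases hj : j < 15
    · rw [mul_def', Finset.sum_eq_single (⟨i, hi⟩ : Fin 15), Finset.sum_eq_single (⟨j, hj⟩ : Fin 15)]
      · simp [e]
      · intro b _ hb
        have : ¬ ((b : ℕ) = j) := fun h => hb (Fin.ext h)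
        simp [e, this]
      · intro h; exact absurd (Finset.mem_univ _) h
      · intro a _ ha
        have : ¬ ((a : ℕ) = i) := fun h => ha (Fin.ext h)
        simp [e, this]
      · intro h; exact absurd (Finset.mem_univ _) h
    · rw [e_ge (by omega : 15 ≤ j), mul_zero]
      unfold tb
      rw [if_neg (by omega), den_nil]
  · rw [e_ge (by omega : 15 ≤ i), zero_mul]
    unfold tb
    rw [if_neg (by omega), den_nil]

lemma den_mul1 (s : ℕ × ℤ) (q : V) :
    den (q.flatMap fun t => (tb s.1 t.1).map fun z => (z.1, s.2 * t.2 * z.2))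
      = (((s.2 : ℤ) : F) • e s.1) * (den q : M15 F) := by
  induction q with
  | nil => rw [List.flatMap_nil, den_nil, mul_zero]
  | cons t q ih =>
    rw [List.flatMap_cons, den_append, ih, den_cons, mul_add, den_scale, smul_mul_assoc,
      smul_mul_assoc, mul_smul_comm, e_mul, smul_smul]
    push_cast
    rfl

lemma den_mulL (p q : V) : (den (mulL p q) : M15 F) = den p * den q := by
  induction p with
  | nil => unfold mulL; rw [List.flatMap_nil, den_nil, zero_mul]
  | cons s p ih =>
    have h : mulL (s :: p) q = (q.flatMap fun t => (tb s.1 t.1).map fun z =>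
        (z.1, s.2 * t.2 * z.2)) ++ mulL p q := by
      unfold mulL; rw [List.flatMap_cons]
    rw [h, den_append, ih, den_cons, add_mul, den_mul1]

lemma den_JL (p q r : V) : (den (JL p q r) : M15 F) = J (den p) (den q) (den r) := by
  unfold JL J
  simp only [den_append, den_mulL, add_assoc]

lemma den_linL (p q r s : V) : (den (linL p q r s) : M15 F) =
    J (den p * den q) (den r) (den s) + J (den p * den s) (den r) (den q)
      + J (den r * den q) (den p) (den s) + J (den r * den s) (den p) (den q) := by
  unfold linL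
  simp only [den_append, den_mulL, den_JL, add_assoc]

lemma den_bv (i : ℕ) : (den (bv i) : M15 F) = e i := by
  unfold bv; rw [den_cons, den_nil]; simp

lemma e_anti (i j : ℕ) : (e i * e j : M15 F) = -(e j * e i) := by
  have hneg : ∀ p : V, (den (p.map fun t => (t.1, -t.2)) : M15 F) = -den p := by
    intro p
    have := den_scale (F := F) (-1) p
    simp only [neg_mul, one_mul, Int.cast_neg, Int.cast_one, neg_smul, one_smul] at this
    exact this
  rw [e_mul, e_mul]
  unfold tb
  by_cases h : i < 15 ∧ j < 15
  · rw [if_pos h, if_pos h.symm]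
    rcases lt_trichotomy i j with h1 | h1 | h1
    · rw [if_pos h1, if_neg (by omega), if_pos h1, hneg, neg_neg]
    · subst h1
      rw [if_neg (by omega), if_neg (by omega), den_nil, neg_zero]
    · rw [if_neg (by omega), if_pos h1, if_pos h1, hneg]
  · rw [if_neg h, if_neg (by omega), den_nil, neg_zero]

lemma span_e : Submodule.span F (Set.range (e : ℕ → M15 F)) = ⊤ := by
  rw [eq_top_iff]
  rintro f -
  have h : f = ∑ i : Fin 15, f i • (e i : M15 F) := by
    funext j
    have : (∑ i : Fin 15, f i • (e i : M15 F)) j = ∑ i : Fin 15, (f i • (e i : M15 F)) j := by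
      exact Finset.sum_apply j Finset.univ _
    rw [this, Finset.sum_eq_single j]
    · simp [e]
    · intro b _ hb
      have : ¬ ((j : ℕ) = b) := fun h => hb (Fin.ext h.symm)
      simp [e, this]
    · intro h; exact absurd (Finset.mem_univ _) h
  rw [h]
  exact Submodule.sum_mem _ fun i _ => Submodule.smul_mem _ _ (Submodule.subset_span ⟨_, rfl⟩)

lemma M15.anti (f g : M15 F) : f * g = -(g * f) := by
  rw [eq_neg_iff_add_eq_zero]
  refine span_ind (S := F) span_e (fun f => f * g + g * f)
    (fun x y => by simp only [add_mul, mul_add]; abel)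
    (fun r x => by simp only [smul_mul_assoc, mul_smul_comm, smul_add]) ?_ f
  rintro _ ⟨i, rfl⟩
  refine span_ind (S := F) span_e (fun g => e i * g + g * e i)
    (fun x y => by simp only [add_mul, mul_add]; abel)
    (fun r x => by simp only [smul_mul_assoc, mul_smul_comm, smul_add]) ?_ g
  rintro _ ⟨j, rfl⟩
  rw [e_anti i j, neg_add_cancel]

/-- the linearised identity as a function -/
def li {A : Type*} [NonUnitalNonAssocRing A] (a b c d : A) : A :=
  J (a * b) c d + J (a * d) c b + J (c * b) a d + J (c * d) a b

lemma li_s1 {A : Type*} [NonUnitalNonAssocRing A] (a b c d : A) : li a b c d = li a d c b := by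
  unfold li; abel

lemma li_s2 {A : Type*} [NonUnitalNonAssocRing A] (a b c d : A) : li a b c d = li c b a d := by
  unfold li; abel

lemma J_sw {A : Type*} [NonUnitalNonAssocRing A] (h : ∀ a b : A, a * b = -(b * a)) (a b c d : A) :
    J (a * b) c d = J (b * a) d c := by
  rw [h a b, J_neg1]
  unfold J
  rw [h (b * a) c, h c d, h d (b * a)]
  simp only [neg_mul]
  abel

lemma li_s3 {A : Type*} [NonUnitalNonAssocRing A] (h : ∀ a b : A, a * b = -(b * a)) (a b c d : A) :
    li a b c d = li b a d c := by
  unfold li
  rw [J_sw h a b c d, J_sw h a d c b, J_sw h c b a d, J_sw h c d a b]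
  abel

lemma li_ord {i j k l : ℕ} (hk : k < 15) (hl : l < 15) (h1 : i ≤ k) (h2 : i ≤ j) (h3 : j ≤ l) :
    li (e i : M15 F) (e j) (e k) (e l) = 0 := by
  have h := chk_true
  unfold chk at h
  rw [List.all_eq_true] at h
  have a1 := h i (List.mem_range.mpr (by omega))
  rw [List.all_eq_true] at a1
  have a2 := a1 k (List.mem_range.mpr hk)
  rw [Bool.or_eq_true, decide_eq_true_eq, List.all_eq_true] at a2
  have a3 := (a2.resolve_left (by omega)) j (List.mem_range.mpr (by omega))
  rw [Bool.or_eq_true, decide_eq_true_eq, List.all_eq_true] at a3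
  have a4 := (a3.resolve_left (by omega)) l (List.mem_range.mpr hl)
  rw [Bool.or_eq_true, decide_eq_true_eq] at a4
  have a5 := den_isZ (F := F) (a4.resolve_left (by omega))
  rw [den_linL, den_bv, den_bv, den_bv, den_bv] at a5
  exact a5

lemma li_min {i j k l : ℕ} (hi : i < 15) (hj : j < 15) (hk : k < 15) (hl : l < 15) (h1 : i ≤ k)
    (h3 : j ≤ l) : li (e i : M15 F) (e j) (e k) (e l) = 0 := by
  rcases le_total i j with h | h
  · exact li_ord hk hl h1 h h3
  · rw [li_s3 M15.anti]
    exact li_ord hl hk h3 h h1

lemma li_all (i j k l : ℕ) : li (e i : M15 F) (e j) (e k) (e l) = 0 := by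
  have z1 : ∀ a b c : M15 F, li 0 a b c = 0 := fun a b c => by
    unfold li; simp only [zero_mul, mul_zero, J_zero1, J_zero2, J_zero3, add_zero]
  by_cases hi : i < 15
  swap
  · rw [e_ge (by omega : 15 ≤ i), z1]
  by_cases hj : j < 15
  swap
  · rw [e_ge (by omega : 15 ≤ j), li_s3 M15.anti, z1]
  by_cases hk : k < 15
  swap
  · rw [e_ge (by omega : 15 ≤ k), li_s2, z1]
  by_cases hl : l < 15
  swap
  · rw [e_ge (by omega : 15 ≤ l), li_s1, li_s3 M15.anti, z1]
  rcases le_total i k with h1 | h1
  · rcases le_total j l with h3 | h3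
    · exact li_min hi hj hk hl h1 h3
    · rw [li_s1]; exact li_min hi hl hk hj h1 h3
  · rw [li_s2]
    rcases le_total j l with h3 | h3
    · exact li_min hk hj hi hl h1 h3
    · rw [li_s1]; exact li_min hk hl hi hj h1 h3

lemma M15.lin (f g p q : M15 F) :
    J (f * g) p q + J (f * q) p g + J (p * g) f q + J (p * q) f g = 0 := by
  change li f g p q = 0
  have hsim : ∀ (a b c d : M15 F), li a b c d =
    J (a * b) c d + J (a * d) c b + J (c * b) a d + J (c * d) a b := fun _ _ _ _ => rfl
  refine span_ind (S := F) span_e (fun f => li f g p q)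
    (fun x y => by simp only [hsim, add_mul, mul_add, J_add1, J_add2, J_add3]; abel)
    (fun r x => by
      simp only [hsim, smul_mul_assoc, mul_smul_comm, smul_add, J_smul1, J_smul2, J_smul3]) ?_ f
  rintro _ ⟨i, rfl⟩
  refine span_ind (S := F) span_e (fun g => li (e i) g p q)
    (fun x y => by simp only [hsim, add_mul, mul_add, J_add1, J_add2, J_add3]; abel)
    (fun r x => by
      simp only [hsim, smul_mul_assoc, mul_smul_comm, smul_add, J_smul1, J_smul2, J_smul3]) ?_ g
  rintro _ ⟨j, rfl⟩
  refine span_ind (S := F) span_e (fun p => li (e i) (e j) p q)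
    (fun x y => by simp only [hsim, add_mul, mul_add, J_add1, J_add2, J_add3]; abel)
    (fun r x => by
      simp only [hsim, smul_mul_assoc, mul_smul_comm, smul_add, J_smul1, J_smul2, J_smul3]) ?_ p
  rintro _ ⟨k, rfl⟩
  refine span_ind (S := F) span_e (fun q => li (e i) (e j) (e k) q)
    (fun x y => by simp only [hsim, add_mul, mul_add, J_add1, J_add2, J_add3]; abel)
    (fun r x => by
      simp only [hsim, smul_mul_assoc, mul_smul_comm, smul_add, J_smul1, J_smul2, J_smul3]) ?_ q
  rintro _ ⟨l, rfl⟩
  exact li_all i j k l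

end alg

section field

variable {F : Type u} [Field F]

/-- the model is a binary-Lie algebra (linearised form) -/
theorem M15.bl (h2 : (2 : F) ≠ 0) : BL (M15 F) where
  anti := M15.anti
  lin := M15.lin
  two := fun a ha => by
    have : (2 : F) • a = 0 := by rw [two_smul, ha]
    exact (smul_eq_zero.mp this).resolve_left h2

end field

section products

variable {F : Type u} [CommRing F]

lemma p01 : (e 0 * e 1 : M15 F) = (2 : F) • e 1 := by
  rw [e_mul]; simp [tb, tbU, den]

lemma p02 : (e 0 * e 2 : M15 F) = (1 : F) • e 2 := by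
  rw [e_mul]; simp [tb, tbU, den]

lemma p03 : (e 0 * e 3 : M15 F) = (-1 : F) • e 3 := by
  rw [e_mul]; simp [tb, tbU, den]

lemma p04 : (e 0 * e 4 : M15 F) = (2 : F) • e 4 := by
  rw [e_mul]; simp [tb, tbU, den]

/-- `J(c, ua, v) = 2 E` -/
lemma pJ : (J (e 2) (e 3 * e 1) (e 4) : M15 F) = (2 : F) • e 14 := by
  have h : (J (e 2) (e 3 * e 1) (e 4) : M15 F) = den (JL (bv 2) (mulL (bv 3) (bv 1)) (bv 4)) := by
    rw [den_JL, den_mulL, den_bv, den_bv, den_bv, den_bv]
  rw [h]
  have h2 : JL (bv 2) (mulL (bv 3) (bv 1)) (bv 4) = [(14, 2)] := by decide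
  rw [h2, den_cons, den_nil]
  simp

lemma e14_ne [Nontrivial F] : (e 14 : M15 F) ≠ 0 := by
  intro h
  have := congrFun h (14 : Fin 15)
  simp [e] at this

end products

end Model

end Pool.Agent.BLie
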